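import Pool.Agent.Helper19.HO.Defs

/-!
# Project HO (MP_19c155_gt), piece HO-9: Tonelli
-/

open MeasureTheory Set Metric Filter Module
open scoped NNReal Topology RealInnerProductSpace ENNReal Real ContDiff Manifold

namespace Pool.Agent.Helper19.HO

section Crofton

variable {E H ι : Type*} [NormedAddCommGroup E] [InnerProductSpace ℝ E] [NormedAddCommGroup H]
  [InnerProductSpace ℝ H] [Fintype ι] [FiniteDimensional ℝ E] [FiniteDimensional ℝ H]
  [MeasurableSpace E] [BorelSpace E]

omit [FiniteDimensional ℝ E] [FiniteDimensional ℝ H] [MeasurableSpace E] [BorelSpace E] in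
theorem P9.continuous_act (b : OrthonormalBasis ι ℝ H) :
    Continuous (fun p : PiLp 2 (fun _ : ι => E) => act b p) := by
  unfold act
  refine continuous_finsetSum _ (fun j _ => ?_)
  exact ((ContinuousLinearMap.smulRightL ℝ H E (innerSL ℝ (b j))).continuous).comp
    (PiLp.continuous_apply 2 (fun _ : ι => E) j)

/-- the kernel as a function of three variables. -/
noncomputable def P9.kk (b : OrthonormalBasis ι ℝ H)
    (q : PiLp 2 (fun _ : ι => E) × ((E →L[ℝ] H) × E)) : ℝ≥0∞ :=
  gw q.1 * ker b q.1 q.2.1 q.2.2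

theorem P9.measurable_ker (b : OrthonormalBasis ι ℝ H) :
    Measurable (P9.kk (E := E) b) := by
  have hact : Continuous (fun q : PiLp 2 (fun _ : ι => E) × ((E →L[ℝ] H) × E) =>
      act b q.1) := (P9.continuous_act b).comp continuous_fst
  have h1 : Continuous (fun q : PiLp 2 (fun _ : ι => E) × ((E →L[ℝ] H) × E) =>
      act b q.1 ∘L q.2.1) := hact.clm_comp (continuous_fst.comp continuous_snd)
  have h2 : Continuous (fun q : PiLp 2 (fun _ : ι => E) × ((E →L[ℝ] H) × E) =>
      act b q.1 (q.2.1 q.2.2)) :=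
    hact.clm_apply ((continuous_fst.comp continuous_snd).clm_apply
      (continuous_snd.comp continuous_snd))
  have h3 : Continuous (fun q : PiLp 2 (fun _ : ι => E) × ((E →L[ℝ] H) × E) =>
      ENNReal.ofReal |(act b q.1 ∘L q.2.1).det|) :=
    ENNReal.continuous_ofReal.comp
      (continuous_abs.comp (ContinuousLinearMap.continuous_det.comp h1))
  have h4 : Continuous (fun q : PiLp 2 (fun _ : ι => E) × ((E →L[ℝ] H) × E) => gw q.1) := by
    unfold gw
    exact ENNReal.continuous_ofReal.comp (Real.continuous_exp.comp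
      ((((continuous_norm.comp continuous_fst).pow 2).div_const 2).neg))
  have hset : MeasurableSet {q : PiLp 2 (fun _ : ι => E) × ((E →L[ℝ] H) × E) |
      ‖act b q.1 (q.2.1 q.2.2)‖ < 1} :=
    (isOpen_lt (continuous_norm.comp h2) continuous_const).measurableSet
  unfold P9.kk ker
  exact h4.measurable.mul (Measurable.ite hset h3.measurable measurable_const)

omit [FiniteDimensional ℝ E] [FiniteDimensional ℝ H] [MeasurableSpace E] [BorelSpace E] in
theorem P9.euler {g : E → H} {y : E} (hg : DifferentiableAt ℝ g y)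
    (hom : ∀ (y : E) (t : ℝ), 0 < t → g (t • y) = t • g y) : fderiv ℝ g y y = g y := by
  have h1 : HasDerivAt (g ∘ (fun t : ℝ => t • y)) (fderiv ℝ g y y) 1 := by
    have hc : HasDerivAt (fun t : ℝ => t • y) ((1 : ℝ) • y) 1 :=
      (hasDerivAt_id (1 : ℝ)).smul_const y
    have hg' : HasFDerivAt g (fderiv ℝ g y) ((fun t : ℝ => t • y) 1) := by
      have h : (fun t : ℝ => t • y) 1 = y := one_smul ℝ y
      rw [h]; exact hg.hasFDerivAt
    have := hg'.comp_hasDerivAt (1 : ℝ) hc
    rw [one_smul] at this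
    exact this
  have h2 : HasDerivAt (g ∘ (fun t : ℝ => t • y)) (g y) 1 := by
    have hc : HasDerivAt (fun t : ℝ => t • g y) ((1 : ℝ) • g y) 1 :=
      (hasDerivAt_id (1 : ℝ)).smul_const (g y)
    rw [one_smul] at hc
    refine hc.congr_of_eventuallyEq ?_
    filter_upwards [lt_mem_nhds (zero_lt_one : (0 : ℝ) < 1)] with t ht
    exact hom y t ht
  exact h1.unique h2

theorem P9.measurable_pair (b : OrthonormalBasis ι ℝ H) {φ : E → (E →L[ℝ] H)}
    (hφ : Measurable φ) :
    Measurable (fun q : E × PiLp 2 (fun _ : ι => E) => P9.kk b (q.2, (φ q.1, q.1))) := by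
  have h1 : Measurable (fun q : E × PiLp 2 (fun _ : ι => E) => (q.2, (φ q.1, q.1))) :=
    measurable_snd.prodMk ((hφ.comp measurable_fst).prodMk measurable_fst)
  exact (P9.measurable_ker b).comp h1

omit [FiniteDimensional ℝ H] in
theorem P9.measurable_ker_right (b : OrthonormalBasis ι ℝ H) {φ : E → (E →L[ℝ] H)}
    (hφ : Measurable φ) (p : PiLp 2 (fun _ : ι => E)) :
    Measurable (fun y : E => ker b p (φ y) y) := by
  have hact : Measurable (fun y : E => act b p ∘L φ y) := by
    have : Continuous (fun D : E →L[ℝ] H => act b p ∘L D) :=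
      continuous_const.clm_comp continuous_id
    exact this.measurable.comp hφ
  have hdet : Measurable (fun y : E => ENNReal.ofReal |(act b p ∘L φ y).det|) := by
    have hc : Continuous (fun D : E →L[ℝ] E => ENNReal.ofReal |D.det|) :=
      ENNReal.continuous_ofReal.comp (continuous_abs.comp ContinuousLinearMap.continuous_det)
    exact hc.measurable.comp hact
  have hval : Measurable (fun y : E => act b p (φ y y)) := by
    have hc : Continuous (fun q : (E →L[ℝ] H) × E => act b p (q.1 q.2)) :=
      (act b p).continuous.comp (continuous_fst.clm_apply continuous_snd)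
    exact hc.measurable.comp (hφ.prodMk measurable_id)
  unfold ker
  exact Measurable.ite (measurableSet_lt hval.norm measurable_const) hdet measurable_const

theorem P9.swap (b : OrthonormalBasis ι ℝ H) {φ : E → (E →L[ℝ] H)}
    (hφ : Measurable φ) :
    ∫⁻ y, Psi b (φ y) y
      = ∫⁻ p : PiLp 2 (fun _ : ι => E), gw p * ∫⁻ y, ker b p (φ y) y := by
  have h1 : ∫⁻ y, Psi b (φ y) y
      = ∫⁻ y, ∫⁻ p : PiLp 2 (fun _ : ι => E), P9.kk b (p, (φ y, y)) := rfl
  rw [h1, lintegral_lintegral_swap (P9.measurable_pair b hφ).aemeasurable]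
  refine lintegral_congr (fun p => ?_)
  have h2 : ∀ y : E, P9.kk b (p, (φ y, y)) = gw p * ker b p (φ y) y := fun y => rfl
  simp_rw [h2]
  rw [lintegral_const_mul _ (P9.measurable_ker_right b hφ p)]

omit [FiniteDimensional ℝ E] [FiniteDimensional ℝ H] [MeasurableSpace E] [BorelSpace E] in
theorem P9.ker_eq (b : OrthonormalBasis ι ℝ H) {g : E → H} {y : E}
    (hy : DifferentiableAt ℝ g y)
    (hom : ∀ (y : E) (t : ℝ), 0 < t → g (t • y) = t • g y) (p : PiLp 2 (fun _ : ι => E)) :
    ker b p (fderiv ℝ g y) y = {y : E | ‖act b p (g y)‖ < 1}.indicator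
          (fun y => ENNReal.ofReal |(fderiv ℝ (fun y => act b p (g y)) y).det|) y := by
  have he := P9.euler hy hom
  have hf : fderiv ℝ (fun y => act b p (g y)) y = act b p ∘L fderiv ℝ g y :=
    ((act b p).hasFDerivAt.comp y hy.hasFDerivAt).fderiv
  unfold ker
  rw [he]
  by_cases h : ‖act b p (g y)‖ < 1
  · rw [if_pos h, indicator_of_mem (show y ∈ {y : E | ‖act b p (g y)‖ < 1} from h), hf]
  · rw [if_neg h, indicator_of_notMem (show y ∉ {y : E | ‖act b p (g y)‖ < 1} from h)]

theorem lintegral_Psi (b : OrthonormalBasis ι ℝ H) {g : E → H} (hg : ContDiffOn ℝ 1 g {0}ᶜ)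
    (hom : ∀ (y : E) (t : ℝ), 0 < t → g (t • y) = t • g y) [Nontrivial E] :
    ∫⁻ y, Psi b (fderiv ℝ g y) y
      = ∫⁻ p : PiLp 2 (fun _ : ι => E), gw p * ∫⁻ y, {y : E | ‖act b p (g y)‖ < 1}.indicator
          (fun y => ENNReal.ofReal |(fderiv ℝ (fun y => act b p (g y)) y).det|) y := by
  have hdiff : ∀ y : E, y ≠ 0 → DifferentiableAt ℝ g y := fun y hy =>
    (hg.contDiffAt (isOpen_compl_singleton.mem_nhds hy)).differentiableAt (by norm_num)
  have : CompleteSpace H := FiniteDimensional.complete ℝ H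
  have hfd : Measurable (fderiv ℝ g) := measurable_fderiv ℝ g
  rw [P9.swap b hfd]
  refine lintegral_congr (fun p => ?_)
  congr 1
  refine lintegral_congr_ae ?_
  have hae : ∀ᵐ y : E, y ≠ 0 := by
    have h0 : (volume : Measure E) {0} = 0 := measure_singleton 0
    filter_upwards [compl_mem_ae_iff.2 h0] with y hy
    exact hy
  filter_upwards [hae] with y hy
  exact P9.ker_eq b (hdiff y hy) hom p

end Crofton

end Pool.Agent.Helper19.HO
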